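import Pool.Agent.W745.RW.Stm

/-!
# Energy identity
-/

set_option autoImplicit false

open MeasureTheory Filter Topology Complex
open scoped ContDiff Manifold

namespace Pool.Agent.W366.RW

open Pool.Agent.W745.RW

noncomputable section

theorem dxs (f : ℂ → ℝ) (hf : ContDiff ℝ ∞ f) : ContDiff ℝ ∞ (dx f) :=
  (hf.fderiv_right (m := ∞) le_rfl).clm_apply contDiff_const

theorem dys (f : ℂ → ℝ) (hf : ContDiff ℝ ∞ f) : ContDiff ℝ ∞ (dy f) :=
  (hf.fderiv_right (m := ∞) le_rfl).clm_apply contDiff_const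

theorem df (f : ℂ → ℝ) (hf : ContDiff ℝ ∞ f) : Differentiable ℝ f :=
  hf.differentiable (by simp)

theorem dxm (f g : ℂ → ℝ) (hf : ContDiff ℝ ∞ f) (hg : ContDiff ℝ ∞ g) (z : ℂ) :
    dx (fun z => f z * g z) z = f z * dx g z + g z * dx f z := by
  unfold dx
  rw [fderiv_fun_mul (df f hf z) (df g hg z)]
  simp

theorem dym (f g : ℂ → ℝ) (hf : ContDiff ℝ ∞ f) (hg : ContDiff ℝ ∞ g) (z : ℂ) :
    dy (fun z => f z * g z) z = f z * dy g z + g z * dy f z := by
  unfold dy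
  rw [fderiv_fun_mul (df f hf z) (df g hg z)]
  simp

theorem int_zero (g : ℂ → ℝ) (hg : ContDiff ℝ ∞ g) (hc : HasCompactSupport g) (v : ℂ) :
    Integrable (fun z => fderiv ℝ g z v) ∧ ∫ z, fderiv ℝ g z v = 0 := by
  have h1 : Continuous fun z => fderiv ℝ g z v :=
    ((hg.fderiv_right (m := ∞) le_rfl).clm_apply contDiff_const).continuous
  have hi : Integrable (fun z => fderiv ℝ g z v) :=
    h1.integrable_of_hasCompactSupport (hc.fderiv_apply ℝ v)
  refine ⟨hi, ?_⟩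
  have h2 := integral_mul_fderiv_eq_neg_fderiv_mul_of_integrable (μ := (volume : Measure ℂ))
    (f := fun _ : ℂ => (1 : ℝ)) (g := g) (v := v) (by simp) (by simpa using hi)
    (by simpa using hg.continuous.integrable_of_hasCompactSupport hc)
    (fun x _ => differentiableAt_const _) (fun x _ => df g hg x)
  simpa using h2

/-- The identity for a globally smooth function. -/
theorem glob (h : ℝ) (w ζ : ℂ → ℝ) (hw : ContDiff ℝ ∞ w) (hζ : ContDiff ℝ ∞ ζ)
    (hc : HasCompactSupport ζ) (he : ∀ z, ζ z ≠ 0 → h ^ 2 * lap w z + w z = 0) :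
    h ^ 2 * ∫ z, (dx (fun w' => ζ w' * w w') z ^ 2 + dy (fun w' => ζ w' * w w') z ^ 2) =
      ∫ z, (h ^ 2 * (dx ζ z ^ 2 + dy ζ z ^ 2) + ζ z ^ 2) * w z ^ 2 := by
  have hx := dxs w hw
  have hy := dys w hw
  have s1 : ContDiff ℝ ∞ (fun z => (ζ z * ζ z) * (w z * dx w z)) :=
    (hζ.mul hζ).mul (hw.mul hx)
  have s2 : ContDiff ℝ ∞ (fun z => (ζ z * ζ z) * (w z * dy w z)) :=
    (hζ.mul hζ).mul (hw.mul hy)
  have c1 : HasCompactSupport (fun z => (ζ z * ζ z) * (w z * dx w z)) :=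
    (HasCompactSupport.mul_right (f := ζ) (f' := ζ) hc).mul_right
  have c2 : HasCompactSupport (fun z => (ζ z * ζ z) * (w z * dy w z)) :=
    (HasCompactSupport.mul_right (f := ζ) (f' := ζ) hc).mul_right
  obtain ⟨i1, j1⟩ := int_zero _ s1 c1 1
  obtain ⟨i2, j2⟩ := int_zero _ s2 c2 I
  have g3 : Continuous fun z => (h ^ 2 * (dx ζ z ^ 2 + dy ζ z ^ 2) + ζ z ^ 2) * w z ^ 2 := by
    have a1 := (dxs ζ hζ).continuous
    have a2 := (dys ζ hζ).continuous
    have a3 := hζ.continuous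
    have a4 := hw.continuous
    fun_prop
  have c3 : HasCompactSupport
      fun z => (h ^ 2 * (dx ζ z ^ 2 + dy ζ z ^ 2) + ζ z ^ 2) * w z ^ 2 := by
    refine HasCompactSupport.intro hc fun z hz => ?_
    have e1 : ζ z = 0 := image_eq_zero_of_notMem_tsupport hz
    have e2 : dx ζ z = 0 := by
      unfold dx
      rw [fderiv_of_notMem_tsupport ℝ hz]
      rfl
    have e3 : dy ζ z = 0 := by
      unfold dy
      rw [fderiv_of_notMem_tsupport ℝ hz]
      rfl
    rw [e1, e2, e3]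
    ring
  have i3 := g3.integrable_of_hasCompactSupport (μ := (volume : Measure ℂ)) c3
  have key : ∀ z, h ^ 2 * (dx (fun w' => ζ w' * w w') z ^ 2 + dy (fun w' => ζ w' * w w') z ^ 2) =
      h ^ 2 * fderiv ℝ (fun z => (ζ z * ζ z) * (w z * dx w z)) z 1 +
      h ^ 2 * fderiv ℝ (fun z => (ζ z * ζ z) * (w z * dy w z)) z I +
      (h ^ 2 * (dx ζ z ^ 2 + dy ζ z ^ 2) + ζ z ^ 2) * w z ^ 2 := by
    intro z
    have k1 : fderiv ℝ (fun z => (ζ z * ζ z) * (w z * dx w z)) z 1 =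
        (ζ z * ζ z) * (w z * dx (dx w) z + dx w z * dx w z) +
          (w z * dx w z) * (ζ z * dx ζ z + ζ z * dx ζ z) := by
      have := dxm (fun z => ζ z * ζ z) (fun z => w z * dx w z) (hζ.mul hζ) (hw.mul hx) z
      rw [dxm ζ ζ hζ hζ, dxm w (dx w) hw hx] at this
      exact this
    have k2 : fderiv ℝ (fun z => (ζ z * ζ z) * (w z * dy w z)) z I =
        (ζ z * ζ z) * (w z * dy (dy w) z + dy w z * dy w z) +
          (w z * dy w z) * (ζ z * dy ζ z + ζ z * dy ζ z) := by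
      have := dym (fun z => ζ z * ζ z) (fun z => w z * dy w z) (hζ.mul hζ) (hw.mul hy) z
      rw [dym ζ ζ hζ hζ, dym w (dy w) hw hy] at this
      exact this
    rw [k1, k2, dxm ζ w hζ hw, dym ζ w hζ hw]
    have k3 : ζ z * (h ^ 2 * lap w z + w z) = 0 := by
      by_cases h0 : ζ z = 0
      · rw [h0, zero_mul]
      · rw [he z h0, mul_zero]
    unfold lap at k3
    linear_combination (-(ζ z * w z)) * k3
  rw [← integral_const_mul]
  have e4 : ∫ z, h ^ 2 * (dx (fun w' => ζ w' * w w') z ^ 2 + dy (fun w' => ζ w' * w w') z ^ 2) =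
      ∫ z, (h ^ 2 * fderiv ℝ (fun z => (ζ z * ζ z) * (w z * dx w z)) z 1 +
      h ^ 2 * fderiv ℝ (fun z => (ζ z * ζ z) * (w z * dy w z)) z I +
      (h ^ 2 * (dx ζ z ^ 2 + dy ζ z ^ 2) + ζ z ^ 2) * w z ^ 2) :=
    integral_congr_ae (Eventually.of_forall key)
  have i12 : Integrable (fun z => h ^ 2 * fderiv ℝ (fun z => (ζ z * ζ z) * (w z * dx w z)) z 1 +
      h ^ 2 * fderiv ℝ (fun z => (ζ z * ζ z) * (w z * dy w z)) z I) :=
    (i1.const_mul _).add (i2.const_mul _)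
  rw [e4, integral_add i12 i3,
    integral_add (i1.const_mul _) (i2.const_mul _), integral_const_mul, integral_const_mul,
    j1, j2]
  ring

/-- A globally smooth function which agrees with `u` near the support of `ζ`. -/
theorem cut (B : Set ℂ) (hB : IsOpen B) (u ζ : ℂ → ℝ) (hu : ContDiffOn ℝ ∞ u B) (hζ : TF B ζ) :
    ∃ w : ℂ → ℝ, ContDiff ℝ ∞ w ∧ ∀ z ∈ tsupport ζ, ∀ᶠ z' in 𝓝 z, w z' = u z' := by
  have hd : Disjoint Bᶜ (tsupport ζ) := by
    rw [Set.disjoint_compl_left_iff_subset]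
    exact hζ.2.2
  obtain ⟨f, hf0, hf1, -⟩ := exists_contMDiffMap_zero_one_nhds_of_isClosed (𝓘(ℝ, ℂ))
    (n := ⊤) hB.isClosed_compl (isClosed_tsupport ζ) hd
  have hfs : ContDiff ℝ ∞ (f : ℂ → ℝ) := f.contMDiff.contDiff
  refine ⟨fun z => f z * u z, ?_, fun z hz => ?_⟩
  · refine contDiff_iff_contDiffAt.2 fun z => ?_
    by_cases hz : z ∈ B
    · exact hfs.contDiffAt.mul (hu.contDiffAt (hB.mem_nhds hz))
    · have h1 : ∀ᶠ x in 𝓝 z, f x = 0 := hf0.filter_mono (nhds_le_nhdsSet hz)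
      have h2 : (fun x => f x * u x) =ᶠ[𝓝 z] fun _ => (0 : ℝ) := by
        filter_upwards [h1] with x hx
        rw [hx, zero_mul]
      exact contDiffAt_const.congr_of_eventuallyEq h2
  · have h1 : ∀ᶠ x in 𝓝 z, f x = 1 := hf1.filter_mono (nhds_le_nhdsSet hz)
    filter_upwards [h1] with x hx
    rw [hx, one_mul]

theorem dx_congr (f g : ℂ → ℝ) (z : ℂ) (h : ∀ᶠ z' in 𝓝 z, f z' = g z') :
    (∀ᶠ z' in 𝓝 z, dx f z' = dx g z') ∧ (∀ᶠ z' in 𝓝 z, dy f z' = dy g z') := by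
  have h1 : ∀ᶠ z' in 𝓝 z, ∀ᶠ z'' in 𝓝 z', f z'' = g z'' := h.eventually_nhds
  constructor
  · filter_upwards [h1] with x hx
    unfold dx
    rw [Filter.EventuallyEq.fderiv_eq hx]
  · filter_upwards [h1] with x hx
    unfold dy
    rw [Filter.EventuallyEq.fderiv_eq hx]

theorem lap_congr (f g : ℂ → ℝ) (z : ℂ) (h : ∀ᶠ z' in 𝓝 z, f z' = g z') : lap f z = lap g z := by
  obtain ⟨h1, h2⟩ := dx_congr f g z h
  unfold lap
  rw [(dx_congr _ _ z h1).1.self_of_nhds, (dx_congr _ _ z h2).2.self_of_nhds]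

/-- SE. -/
theorem energy : SE := by
  intro B hB h u hu ζ hζ
  obtain ⟨w, hw, hwu⟩ := cut B hB u ζ hu.smooth hζ
  have h1 := glob h w ζ hw hζ.1 hζ.2.1 (fun z hz => ?_)
  · have hpt : ∀ z, z ∈ tsupport ζ → w z = u z := fun z hz => (hwu z hz).self_of_nhds
    have e1 : (fun w' => ζ w' * w w') = fun w' => ζ w' * u w' := by
      funext z
      by_cases hz : z ∈ tsupport ζ
      · rw [hpt z hz]
      · rw [image_eq_zero_of_notMem_tsupport hz, zero_mul, zero_mul]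
    have e2 : (fun z => (h ^ 2 * (dx ζ z ^ 2 + dy ζ z ^ 2) + ζ z ^ 2) * w z ^ 2) =
        fun z => (h ^ 2 * (dx ζ z ^ 2 + dy ζ z ^ 2) + ζ z ^ 2) * u z ^ 2 := by
      funext z
      by_cases hz : z ∈ tsupport ζ
      · rw [hpt z hz]
      · have a1 : ζ z = 0 := image_eq_zero_of_notMem_tsupport hz
        have a2 : dx ζ z = 0 := by
          unfold dx
          rw [fderiv_of_notMem_tsupport ℝ hz]
          rfl
        have a3 : dy ζ z = 0 := by
          unfold dy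
          rw [fderiv_of_notMem_tsupport ℝ hz]
          rfl
        rw [a1, a2, a3]
        ring
    rw [e1, e2] at h1
    exact h1
  · have hz' : z ∈ tsupport ζ := subset_tsupport ζ hz
    rw [lap_congr w u z (hwu z hz'), (hwu z hz').self_of_nhds]
    exact hu.eq z (hζ.2.2 hz')

end

end Pool.Agent.W366.RW
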